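import Mathlib

namespace Pool.Agent.H.MP_7c82b6_nt.A

open Finset NumberTheorySymbols

lemma per (n : ℕ) (x k : ℤ) : J(x + n * k | n) = J(x | n) :=
  jacobiSym.mod_left' (by simp)

lemma absle (x : ℤ) (n : ℕ) : |J(x | n)| ≤ 1 := by
  rcases jacobiSym.trichotomy x n with h | h | h <;> simp [h]

lemma crt (a b : ℕ) (ha : 0 < a) (hb : 0 < b) (h : a.Coprime b) (f g : ℕ → ℤ)
    (hf : ∀ x, f x = f (x % a)) (hg : ∀ x, g x = g (x % b)) :
    ∑ x ∈ range (a * b), f x * g x = (∑ x ∈ range a, f x) * ∑ x ∈ range b, g x := by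
  rw [sum_mul_sum, ← sum_product']
  refine sum_bij' (fun x _ => (x % a, x % b)) (fun z _ => (Nat.chineseRemainder h z.1 z.2 : ℕ))
    (fun x _ => by simp [Nat.mod_lt, ha, hb])
    (fun z _ => mem_range.2 (Nat.chineseRemainder_lt_mul h _ _ ha.ne' hb.ne')) ?_ ?_
    (fun x _ => by rw [hf x, hg x])
  · intro x hx
    refine Nat.ModEq.eq_of_lt_of_lt ?_ (Nat.chineseRemainder_lt_mul h _ _ ha.ne' hb.ne')
      (mem_range.1 hx)
    exact (Nat.chineseRemainder_modEq_unique h (Nat.mod_modEq x a).symm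
      (Nat.mod_modEq x b).symm).symm
  · rintro ⟨u, v⟩ hz
    simp only [mem_product, mem_range] at hz
    have := (Nat.chineseRemainder h u v).2
    exact Prod.ext (Eq.trans this.1 (Nat.mod_eq_of_lt hz.1)) (Eq.trans this.2 (Nat.mod_eq_of_lt hz.2))

def T (n : ℕ) (u v : ℤ) : ℤ := ∑ x ∈ range n, J(x + u | n) * J(x + v | n)

lemma T_triv (n : ℕ) (u v : ℤ) : |T n u v| ≤ n := by
  refine (abs_sum_le_sum_abs _ _).trans ((sum_le_card_nsmul _ _ 1 fun x _ => ?_).trans (by simp))
  rw [abs_mul]
  exact mul_le_one₀ (absle _ _) (abs_nonneg _) (absle _ _)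

lemma T_prime (p : ℕ) [hp : Fact p.Prime] (h2 : p ≠ 2) (u v : ℤ) (h : ¬ (p : ℤ) ∣ u - v) :
    T p u v = -1 := by
  have hc : ringChar (ZMod p) ≠ 2 := by rwa [ZMod.ringChar_zmod_n]
  have h0 : ((u : ZMod p) - v) ≠ 0 := by
    rw [← Int.cast_sub, Ne, ZMod.intCast_zmod_eq_zero_iff_dvd]; exact h
  have e1 : T p u v = ∑ x : ZMod p, quadraticChar (ZMod p) (x + u) * quadraticChar (ZMod p) (x + v) := by
    unfold T
    refine sum_bij' (fun x _ => (x : ZMod p)) (fun x _ => x.val) (by simp)
      (fun x _ => mem_range.2 (ZMod.val_lt x)) (fun x hx => ZMod.val_cast_of_lt (mem_range.1 hx))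
      (by simp) (fun x _ => ?_)
    simp only [← jacobiSym.legendreSym.to_jacobiSym, legendreSym]
    push_cast; rfl
  rw [e1, ← Equiv.sum_comp (Equiv.subRight (v : ZMod p)),
    ← Equiv.sum_comp (Equiv.mulLeft₀ _ h0), ← Equiv.sum_comp (Equiv.inv _)]
  have e2 : ∀ x : ZMod p, quadraticChar (ZMod p) ((u - v) * x⁻¹ - v + u) *
      quadraticChar (ZMod p) ((u - v) * x⁻¹ - v + v) =
      quadraticChar (ZMod p) (x + 1) - if x = 0 then 1 else 0 := by
    intro x
    split_ifs with hx
    · simp [hx]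
    · rw [← map_mul, show ((u : ZMod p) - v) * x⁻¹ - v + u = ((u - v) * x⁻¹) * (x + 1) by
        field_simp; ring, sub_add_cancel, mul_right_comm, ← sq, map_mul,
        quadraticChar_sq_one' (mul_ne_zero h0 (inv_ne_zero hx))]
      simp
  simp only [Equiv.subRight_apply, Equiv.mulLeft₀_apply, Equiv.inv_apply]
  rw [sum_congr rfl fun x _ => e2 x, sum_sub_distrib,
    Fintype.sum_equiv (Equiv.addRight 1) (fun x => quadraticChar (ZMod p) (x + 1))
      (quadraticChar (ZMod p)) (fun _ => rfl),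
    quadraticChar_sum_zero hc]
  simp

lemma T_sqf (u v : ℤ) (q : ℕ) : Squarefree q → Odd q → |T q u v| ≤ Nat.gcd (u - v).natAbs q := by
  induction q using Nat.recOnPosPrimePosCoprime with
  | zero => simp
  | one => simp [T]
  | prime_pow p n hp hn =>
    intro h1 h2
    obtain rfl : n = 1 := (Nat.squarefree_pow_iff hp.ne_one hn.ne').1 h1 |>.2
    rw [pow_one] at *
    have := Fact.mk hp
    by_cases h : (p : ℤ) ∣ u - v
    · rw [Nat.gcd_eq_right (Int.natCast_dvd.1 h)]; exact T_triv _ _ _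
    · rw [T_prime p (by rintro rfl; exact absurd h2 (by decide)) u v h]
      have := Nat.gcd_pos_of_pos_right (u - v).natAbs hp.pos
      rw [abs_neg, abs_one]; omega
  | coprime a b ha hb h iha ihb =>
    intro h1 h2
    have := crt a b (by omega) (by omega) h (fun x => J(x + u | a) * J(x + v | a))
      (fun x => J(x + u | b) * J(x + v | b))
      (fun x => by congr 1 <;> exact jacobiSym.mod_left' (by simp))
      (fun x => by congr 1 <;> exact jacobiSym.mod_left' (by simp))
    have e : T (a * b) u v = T a u v * T b u v := by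
      unfold T
      rw [← this]
      refine sum_congr rfl fun x _ => ?_
      rw [jacobiSym.mul_right' _ (by omega) (by omega), jacobiSym.mul_right' _ (by omega) (by omega)]
      ring
    rw [e, abs_mul, Nat.Coprime.gcd_mul _ h]
    push_cast
    exact mul_le_mul (iha h1.of_mul_left (Nat.odd_mul.1 h2).1)
      (ihb h1.of_mul_right (Nat.odd_mul.1 h2).2) (abs_nonneg _) (by positivity)

lemma per_sum (f : ℕ → ℤ) (P : ℕ) (hf : ∀ x, f (P + x) = f x) (k : ℕ) :
    ∑ x ∈ range (k * P), f x = k * ∑ x ∈ range P, f x := by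
  induction k with
  | zero => simp
  | succ k ih =>
    rw [Nat.succ_mul, add_comm, sum_range_add, sum_congr rfl fun x _ => hf x, ih]
    push_cast; ring

lemma absum (f : ℕ → ℤ) (hf : ∀ x, |f x| ≤ 1) (t : ℕ) : |∑ x ∈ range t, f x| ≤ t :=
  (abs_sum_le_sum_abs _ _).trans ((sum_le_card_nsmul _ _ 1 fun x _ => hf x).trans (by simp))

lemma small (p y H : ℕ) (hp : p % 4 = 3) (hy : 1 ≤ y) (h : 64 * y ^ 7 ≤ p) (hH : H ≤ p) :
    y * |∑ m ∈ range H, J(m | p)| ≤ p := by
  obtain ⟨q, s, rfl, hq⟩ := Nat.sq_mul_squarefree p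
  have hs0 : s ≠ 0 := by rintro rfl; simp at hp
  have hq0 : q ≠ 0 := hq.ne_zero
  have hodd : Odd (s ^ 2 * q) := Nat.odd_iff.2 (by omega)
  have hJ : ∀ x : ℤ, J(x | s ^ 2 * q) = J(x | s) ^ 2 * J(x | q) := fun x => by
    rw [jacobiSym.mul_right' _ (by positivity) hq0, jacobiSym.pow_right]
  rcases le_or_gt y s with hys | hys
  · have hper : ∀ x k : ℤ, J(x + (s * q : ℕ) * k | s ^ 2 * q) = J(x | s ^ 2 * q) := fun x k => by
      rw [hJ, hJ, ← per s x (q * k), ← per q x (s * k)]
      congr 3 <;> push_cast <;> ring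
    have hz : ∑ m ∈ range (s * q), J(m | s ^ 2 * q) = 0 := by
      have h0 : J(0 | s ^ 2 * q) = 0 := jacobiSym.zero_left (by omega)
      have e1 : ∑ m ∈ range (s * q + 1), J(m | s ^ 2 * q) =
          ∑ m ∈ range (s * q), J(m | s ^ 2 * q) := by
        have := hper 0 1
        rw [zero_add, mul_one] at this
        rw [sum_range_succ, this, h0, add_zero]
      have e2 := sum_range_reflect (fun m : ℕ => J(m | s ^ 2 * q)) (s * q + 1)
      rw [sum_congr rfl (g := fun m : ℕ => -J(m | s ^ 2 * q)) (fun m hm => by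
        rw [mem_range] at hm
        rw [show ((s * q + 1 - 1 - m : ℕ) : ℤ) = -m + (s * q : ℕ) * 1 by omega, hper,
          jacobiSym.neg _ hodd, ZMod.χ₄_nat_three_mod_four hp]
        ring), sum_neg_distrib, e1] at e2
      omega
    have hb : |∑ m ∈ range H, J(m | s ^ 2 * q)| ≤ (s * q : ℕ) := by
      rw [← Nat.div_add_mod' H (s * q), sum_range_add, per_sum _ _ (fun x => by
        rw [← hper x 1]; congr 1; push_cast; ring), hz, mul_zero, zero_add]
      refine (absum _ (fun x => absle _ _) _).trans ?_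
      exact_mod_cast (Nat.mod_lt _ (by positivity)).le
    have : (y : ℤ) ≤ s := by exact_mod_cast hys
    push_cast at hb ⊢
    nlinarith [mul_le_mul this hb (abs_nonneg _) (by positivity)]
  · set B := 8 * y ^ 2 with hB
    set S := ∑ m ∈ range H, J(m | s ^ 2 * q) with hS
    have sh : ∀ b ∈ range B, |∑ m ∈ range H, J(m + s * b | s ^ 2 * q) - S| ≤ 2 * (s * B) := by
      intro b hb
      have e1 := sum_range_add (fun m : ℕ => J(m | s ^ 2 * q)) H (s * b)
      rw [add_comm H, sum_range_add] at e1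
      have e2 := absum (fun m : ℕ => J(m | s ^ 2 * q)) (fun x => absle _ _) (s * b)
      have e3 := absum (fun m : ℕ => J((H + m : ℕ) | s ^ 2 * q)) (fun x => absle _ _) (s * b)
      have e4 : ((s * b : ℕ) : ℤ) ≤ s * B := by
        exact_mod_cast Nat.mul_le_mul_left s (mem_range.1 hb).le
      rw [sum_congr rfl (g := fun m : ℕ => J((s * b + m : ℕ) | s ^ 2 * q))
        (fun m _ => by congr 1; push_cast; ring)]
      rw [abs_le] at *
      constructor <;> linarith
    set W := ∑ m ∈ range H, J(m | s) ^ 2 * ∑ b ∈ range B, J(m + s * b | q) with hW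
    have e1 : |W - B * S| ≤ B * (2 * (s * B)) := by
      have : W - B * S = ∑ b ∈ range B, (∑ m ∈ range H, J(m + s * b | s ^ 2 * q) - S) := by
        rw [sum_sub_distrib, sum_comm]
        simp only [hW, mul_sum, hJ, per, sum_const, card_range, nsmul_eq_mul]
      rw [this]
      exact (abs_sum_le_sum_abs _ _).trans ((sum_le_card_nsmul _ _ _ sh).trans (by simp))
    have e2 : ∑ m ∈ range q, (∑ b ∈ range B, J(m + s * b | q)) ^ 2 ≤ B * (q + B * (s * B)) := by
      simp only [sq (∑ b ∈ range B, _), sum_mul_sum]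
      rw [sum_comm]
      refine (sum_le_card_nsmul _ _ (q + B * (s * B) : ℤ) fun b hb => ?_).trans (by simp)
      rw [sum_comm]
      refine (sum_le_sum (g := fun c => (if c = b then (q : ℤ) else 0) + s * B)
        fun c hc => ?_).trans (by simp [sum_add_distrib, hb])
      refine (le_abs_self (T q (s * b) (s * c))).trans ?_
      split_ifs with hcb
      · exact (T_triv _ _ _).trans (le_add_of_nonneg_right (by positivity))
      · refine (T_sqf _ _ q hq (Nat.odd_mul.1 hodd).2).trans ?_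
        rw [mem_range] at hb hc
        have a1 : ((s : ℤ) * b - s * c).natAbs ≤ s * B := by
          rw [← mul_sub, Int.natAbs_mul, Int.natAbs_natCast]
          exact Nat.mul_le_mul_left _ (by omega)
        have a2 : 0 < ((s : ℤ) * b - s * c).natAbs := by
          rw [← mul_sub, Int.natAbs_mul, Int.natAbs_natCast]
          exact Nat.mul_pos (by omega) (by omega)
        rw [zero_add]
        exact_mod_cast (Nat.gcd_le_left _ a2).trans a1
    have e3 : W ^ 2 ≤ (s ^ 2 * q) * (s ^ 2 * (B * (q + B * (s * B)))) := by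
      refine (sum_mul_sq_le_sq_mul_sq _ _ _).trans (mul_le_mul ?_ ?_ (by positivity) (by positivity))
      · refine (sum_le_card_nsmul _ _ 1 fun x _ => ?_).trans (by simpa using (by exact_mod_cast hH))
        rcases jacobiSym.trichotomy x s with h | h | h <;> simp [h]
      · refine (sum_le_sum_of_subset_of_nonneg (range_mono hH) fun _ _ _ => sq_nonneg _).trans ?_
        rw [per_sum _ _ (fun x => by
          congr 1
          refine sum_congr rfl fun b _ => ?_
          rw [← per q (x + s * b) 1]; congr 1; push_cast; ring)]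
        push_cast
        exact mul_le_mul_of_nonneg_left e2 (by positivity)
    have hsy : (s : ℤ) ≤ y := by exact_mod_cast hys.le
    have hy' : (1 : ℤ) ≤ y := by exact_mod_cast hy
    have h' : 64 * (y : ℤ) ^ 7 ≤ s ^ 2 * q := by exact_mod_cast h
    have hB' : (B : ℤ) = 8 * y ^ 2 := by rw [hB]; push_cast; ring
    rw [hB'] at e1 e3
    push_cast
    have hP0 : 0 ≤ (s : ℤ) ^ 2 * q := by positivity
    generalize hP : (s : ℤ) ^ 2 * q = P at *
    have a1 : (s : ℤ) ^ 3 ≤ y ^ 3 := pow_le_pow_left₀ (by positivity) hsy 3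
    have a2 : (s : ℤ) ^ 3 * (64 * y ^ 4) ≤ P := by nlinarith [pow_pos (show (0 : ℤ) < y by omega) 4]
    have a3 : W ^ 2 ≤ (4 * P * y) ^ 2 := by
      refine e3.trans ?_
      have : (s : ℤ) ^ 2 * (8 * y ^ 2 * (q + 8 * y ^ 2 * (s * (8 * y ^ 2)))) =
        8 * y ^ 2 * (P + s ^ 3 * (64 * y ^ 4)) := by rw [← hP]; ring
      rw [this]
      nlinarith [mul_le_mul_of_nonneg_left a2 (show 0 ≤ P * (8 * (y : ℤ) ^ 2) by positivity)]
    have a4 := abs_le_of_sq_le_sq a3 (by positivity)
    have a5 : 8 * (y : ℤ) ^ 2 * |S| ≤ 4 * P * y + 8 * y ^ 2 * (2 * (s * (8 * y ^ 2))) := by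
      have := abs_sub (W - 8 * y ^ 2 * S) W
      rw [show W - 8 * (y : ℤ) ^ 2 * S - W = -(8 * y ^ 2 * S) by ring, abs_neg, abs_mul,
        abs_of_nonneg (by positivity)] at this
      linarith
    have a6 : (y : ℤ) ^ 4 ≤ y ^ 7 := pow_le_pow_right₀ hy' (by norm_num)
    have a7 : (s : ℤ) * y ^ 3 ≤ y ^ 4 := by nlinarith [pow_pos (show (0 : ℤ) < y by omega) 3]
    refine le_of_mul_le_mul_left ?_ (show (0 : ℤ) < 8 * y by omega)
    nlinarith

lemma tot (n : ℕ) (hn : n ≠ 0) : n ≤ (Nat.log 2 n + 1) * n.totient := by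
  have key : ∀ P : Finset ℕ, (∀ a ∈ P, 2 ≤ a) →
      1 ≤ ((P.card : ℚ) + 1) * ∏ a ∈ P, (1 - (a : ℚ)⁻¹) := by
    intro P hP
    · induction P using Finset.induction_on_max with
      | empty => simp
      | insert a s ha ih =>
        have h1 : a ∉ s := fun h => lt_irrefl _ (ha a h)
        have h2 := ih fun b hb => hP b (mem_insert_of_mem hb)
        have h3 : s.card + 2 ≤ a := by
          have := card_le_card (show s ⊆ Ico 2 a from fun b hb =>
            mem_Ico.2 ⟨hP b (mem_insert_of_mem hb), ha b hb⟩)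
          have := hP a (mem_insert_self _ _)
          simp at *; omega
        have h4 : (s.card + 2 : ℚ) ≤ a := by exact_mod_cast h3
        have h5 : (s.card + 1 : ℚ) ≤ (s.card + 1 + 1) * (1 - (a : ℚ)⁻¹) := by
          have : (s.card + 2 : ℚ) * (a : ℚ)⁻¹ ≤ 1 := by
            rw [← div_eq_mul_inv, div_le_one (by linarith [Nat.cast_nonneg (α := ℚ) s.card])]
            exact h4
          linarith
        rw [prod_insert h1, card_insert_of_notMem h1, ← mul_assoc]
        push_cast
        refine h2.trans (mul_le_mul_of_nonneg_right h5 ?_)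
        by_contra hc
        nlinarith [Nat.cast_nonneg (α := ℚ) s.card]
  have h1 := (key n.primeFactors fun a ha => (Nat.prime_of_mem_primeFactors ha).two_le)
  have h2 : n.primeFactors.card ≤ Nat.log 2 n := by
    apply Nat.le_log_of_pow_le (by norm_num)
    exact (pow_card_le_prod _ _ _ fun a ha => (Nat.prime_of_mem_primeFactors ha).two_le).trans
      (Nat.le_of_dvd (by omega) (Nat.prod_primeFactors_dvd n))
  have h3 := Nat.totient_eq_mul_prod_factors n
  have h4 : (n : ℚ) ≤ (n.primeFactors.card + 1) * n.totient := by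
    rw [h3]
    nlinarith [Nat.cast_nonneg (α := ℚ) n]
  have h5 : n ≤ (n.primeFactors.card + 1) * n.totient := by exact_mod_cast h4
  exact h5.trans (Nat.mul_le_mul_right _ (by omega))

end Pool.Agent.H.MP_7c82b6_nt.A
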